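import Pool.Agent.H306R2.SM.Defs

set_option autoImplicit false

/-!
Eighth moment lower bound, part TW (twisted second moment of zeta in mean square over the twist):
definitions.
-/

namespace Pool.Agent.H223.EM

open Finset Filter Topology MeasureTheory Complex
open Pool.Agent.H306R2 Pool.Agent.H306R2.SM

noncomputable section

/-- the divisor function -/
def d2 (n : ℕ) : ℝ := (n.divisors.card : ℝ)

/-- `Σ d(j) (jm/h)^k exp(-(2πi+1/Y) jm/h)` -/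
def SS2 (k h m : ℕ) (Y : ℝ) : ℂ :=
  ∑' j : ℕ, ((d2 j * ((j : ℝ) * m / h) ^ k * Real.exp (-((j : ℝ) * m / h / Y)) : ℝ) : ℂ) *
    ee h (-((j : ℤ) * m))

/-- `ψ(k+1) + 2γ = H_k + γ` -/
def bk (k : ℕ) : ℝ := (harmonic k : ℝ) + Real.eulerMascheroniConstant

/-- two-variable Hurwitz function -/
def E2 (h : ℕ) [NeZero h] (Φ : ZMod h → ZMod h → ℂ) (s : ℂ) : ℂ :=
  (h : ℂ) ^ (-(2 * s)) * ∑ x : ZMod h, ∑ y : ZMod h, Φ x y *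
    (HurwitzZeta.hurwitzZeta (ZMod.toAddCircle x) s *
      HurwitzZeta.hurwitzZeta (ZMod.toAddCircle y) s)

/-- `e(-u x y / h)` -/
def Pu (h : ℕ) [NeZero h] (u : ZMod h) (x y : ZMod h) : ℂ := ZMod.stdAddChar (-(u * x * y))

/-- `e(-u x y / h) - h 1_{x=y=0}`: zero sums in each variable if `u` is a unit -/
def Pz (h : ℕ) [NeZero h] (u : ZMod h) (x y : ZMod h) : ℂ :=
  Pu h u x y - if x = 0 ∧ y = 0 then (h : ℂ) else 0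

/-- `c_0(s) = 1`, `c_1(s) = -cos(π s)` -/
def cs (i : Fin 2) (s : ℂ) : ℂ := if i = 0 then 1 else -Complex.cos ((Real.pi : ℂ) * s)

/-- Mellin transform of the kernel -/
def kap (i : Fin 2) (k : ℕ) (s : ℂ) : ℂ :=
  Complex.Gamma (s + k) * Complex.Gamma (1 - s) ^ 2 * cs i s

/-- the kernel, as an integral over `Re s = σ` -/
def Kc (i : Fin 2) (k : ℕ) (σ x : ℝ) : ℂ :=
  ((1 / (2 * Real.pi) : ℝ) : ℂ) * ∫ t : ℝ, kap i k ((σ : ℂ) + t * I) * (x : ℂ) ^ ((σ : ℂ) + t * I)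

/-- inverse of `m` modulo `h` -/
def iv (h m : ℕ) : ℕ := ((m : ZMod h)⁻¹).val

/-- `e(∓ j m⁻¹ / h)` : sign `-` for `i = 0`, `+` for `i = 1` -/
def ech (i : Fin 2) (h m j : ℕ) : ℂ := ee h ((if i = 0 then -1 else 1) * ((j : ℤ) * iv h m))

/-- terms of the dual sum -/
def Dt (i : Fin 2) (k h m : ℕ) (σ Y : ℝ) (j : ℕ) : ℂ :=
  ((d2 j / j : ℝ) : ℂ) * ech i h m j * Kc i k σ (4 * Real.pi ^ 2 * Y * j / ((m : ℝ) * h))

/-- reduced numerator of `h/(l n)` for coprime `h, l` -/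
def hp (h n : ℕ) : ℕ := h / Nat.gcd h n

/-- reduced denominator of `h/(l n)` for coprime `h, l` -/
def mp (h l n : ℕ) : ℕ := l * (n / Nat.gcd h n)

/-- main term -/
def Mt (k : ℕ) (Y : ℝ) (h l n : ℕ) : ℝ :=
  (Real.log (Y / ((hp h n : ℝ) * mp h l n)) + bk k) / Real.sqrt ((hp h n : ℝ) * mp h l n)

/-- the twisted value -/
def Tv (k : ℕ) (Y : ℝ) (h l n : ℕ) : ℂ :=
  (Real.sqrt ((mp h l n : ℝ) / hp h n) : ℂ) *
    (SS2 k (hp h n) (mp h l n) Y / (((k.factorial : ℝ) * Y ^ (k + 1) : ℝ) : ℂ))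

/-- the error term -/
def Err (k : ℕ) (Y : ℝ) (N : ℕ) (a : ℕ → ℝ) (h l : ℕ) : ℂ :=
  ∑ n ∈ Icc 1 N, ((a n / Real.sqrt n : ℝ) : ℂ) * (Tv k Y h l n - (Mt k Y h l n : ℂ))

/-- head of the dual sum -/
def Hd (i : Fin 2) (k : ℕ) (Y : ℝ) (N J : ℕ) (a : ℕ → ℝ) (h l : ℕ) : ℂ :=
  ∑ n ∈ Icc 1 N, ((a n / Real.sqrt n : ℝ) : ℂ) *
    ((Real.sqrt ((mp h l n : ℝ) * hp h n) / (2 * Real.pi ^ 2 * (k.factorial : ℝ) * Y) : ℝ) : ℂ) *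
    ∑ j ∈ Icc 1 J, Dt i k (hp h n) (mp h l n) (1 / 2) Y j

/-- range of `k` -/
def kr' (T : ℝ) (k : ℕ) : Prop := Real.log T ^ 2 ≤ k ∧ (k : ℝ) ≤ 4 * Real.log T ^ 2

/-- admissible twists -/
def Adm (ε T : ℝ) (b : ℕ × ℕ) : Prop :=
  1 ≤ b.1 ∧ 1 ≤ b.2 ∧ Nat.Coprime b.1 b.2 ∧ (b.1 : ℝ) ≤ T ^ (1 / 2 - ε) ∧ (b.2 : ℝ) ≤ T ^ (1 / 2 - ε)

end

end Pool.Agent.H223.EM
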