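import Pool.Agent.H223.EM.Defs
import Pool.Agent.H306R2.Region

set_option autoImplicit false

/-!
Eighth moment lower bound, main terms: definitions.
-/

namespace Pool.Agent.H223.EM

open Finset Filter Topology MeasureTheory Complex
open Pool.Agent.H306R2 Pool.Agent.H306R2.SM

noncomputable section

/-- local weights of a multiplicative function of `r` variables with `lam p e_i = m_i/p + O(p^-2)` -/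
structure LW (r : ℕ) (m : Fin r → ℕ) (lam : ℕ → (Fin r → ℕ) → ℝ) : Prop where
  nonneg : ∀ p : ℕ, p.Prime → ∀ v, 0 ≤ lam p v
  zero : ∀ p : ℕ, p.Prime → lam p 0 = 1
  sum : ∀ p : ℕ, p.Prime → Summable (lam p)
  first : ∃ C : ℝ, ∀ p : ℕ, p.Prime → ∀ i, |lam p (Pi.single i 1) - (m i : ℝ) / p| ≤ C / (p : ℝ) ^ 2
  second : ∃ C : ℝ, ∀ p : ℕ, p.Prime →
    ∑' v : Fin r → ℕ, (if 2 ≤ ∑ i, v i then lam p v else 0) ≤ C / (p : ℝ) ^ 2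

/-- the multiplicative function with local weights `lam` -/
def mw {r : ℕ} (lam : ℕ → (Fin r → ℕ) → ℝ) (b : Fin r → ℕ) : ℝ :=
  if ∀ i, b i ≠ 0 then ∏ p ∈ (∏ i, b i).primeFactors, lam p (fun i => (b i).factorization p) else 0

/-- local factor of `ps` -/
def psl (p a : ℕ) : ℝ :=
  (1 - 1 / (p : ℝ)) ^ 2 * (((a : ℝ) + 1) * (a + 2) / 2) + ((a : ℝ) + 1) * (1 / (p : ℝ)) * (1 - 1 / (p : ℝ))
    + 1 / (p : ℝ)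

/-- `∏_{p^a || h} (1-1/p)^2 Σ_v (v+1) p^{min(a,v)-v}` -/
def ps (h : ℕ) : ℝ := h.factorization.prod psl

/-- local factor of `De` -/
def Del (p a : ℕ) : ℝ := 1 + (a : ℝ) * (1 - 1 / (p : ℝ)) / (1 + 1 / (p : ℝ))

/-- `∏_{p^a || h} (Σ_v (a+v+1)(v+1)p^{-v}) / (Σ_v (v+1)^2 p^{-v})` -/
def De (h : ℕ) : ℝ := h.factorization.prod Del

/-- weight of the norm of `C1` -/
def w2 (b : Fin 2 → ℕ) : ℝ :=
  if Nat.Coprime (b 0) (b 1) ∧ b 0 ≠ 0 ∧ b 1 ≠ 0 then ps (b 0) ^ 2 / ((b 0 : ℝ) * (b 1 : ℝ)) else 0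

/-- weight of the cross term of `C1`; variables `(h', g, l, n')`, `h = g h'`, `n = g n'` -/
def w4 (b : Fin 4 → ℕ) : ℝ :=
  if Nat.Coprime (b 0) (b 3) ∧ Nat.Coprime (b 0 * b 1) (b 2) ∧ ∀ i, b i ≠ 0 then
    ps (b 0 * b 1) * d2 (b 1 * b 3) / ((b 0 : ℝ) * (b 1 : ℝ) * (b 2 : ℝ) * (b 3 : ℝ)) else 0

/-- weight of the norm of `C2` -/
def v2 (b : Fin 2 → ℕ) : ℝ :=
  if Nat.Coprime (b 0) (b 1) ∧ b 0 ≠ 0 ∧ b 1 ≠ 0 then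
    De (b 0) ^ 2 * De (b 1) ^ 2 / ((b 0 : ℝ) * (b 1 : ℝ)) else 0

/-- weight of the cross term of `C2`; variables `(h, l, m)` -/
def v3 (b : Fin 3 → ℕ) : ℝ :=
  if Nat.Coprime (b 0) (b 1) ∧ ∀ i, b i ≠ 0 then
    De (b 0) * De (b 1) * d2 (b 0 * b 2) * d2 (b 1 * b 2) / ((b 0 : ℝ) * (b 1 : ℝ) * (b 2 : ℝ)) else 0

/-- weight of the fourth moment of `A`; variables `(x11, x12, x21, x22)` -/
def wN (b : Fin 4 → ℕ) : ℝ :=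
  if Nat.Coprime (b 1) (b 2) ∧ ∀ i, b i ≠ 0 then
    d2 (b 0 * b 1) * d2 (b 2 * b 3) * d2 (b 0 * b 2) * d2 (b 1 * b 3) /
      ((b 0 : ℝ) * (b 1 : ℝ) * (b 2 : ℝ) * (b 3 : ℝ)) else 0

/-- `∏ (1 - p^{-2})` -/
def kp : ℝ := ∏' p : Nat.Primes, (1 - (1 / (p : ℝ)) ^ 2)

/-- `G(x,y)`: the average over `b = x β`, `β ~ Beta(6,3)`, of `∫_0^{1/2-b} z (1-(x-b)-y-z) dz` -/
def GG (x y : ℝ) : ℝ :=
  (3 / 2 - x - y) / 2 * (1 / 4 - 2 * x / 3 + 7 * x ^ 2 / 15) -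
    5 / 6 * (1 / 8 - x / 2 + 7 * x ^ 2 / 10 - 56 * x ^ 3 / 165)

/-- cutoff at `1/2` -/
def et (ε x : ℝ) : ℝ := sc (1 / 2 - 2 * ε) ε x

/-- coefficient function of `C1` -/
def f1 (ε : ℝ) (x y : ℝ) : ℝ := GG x y * et ε x * et ε y

/-- coefficient function of `C2` -/
def f2 (ε : ℝ) (x y : ℝ) : ℝ := (1 / 2 - x) ^ 4 / 24 * et ε x * et ε y

/-- coefficients of `A` -/
def aa (ε T : ℝ) (n : ℕ) : ℝ := d2 n * et ε (Real.log n / Real.log T)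

/-- coefficients of `C1` -/
def c1 (ε T : ℝ) (b : ℕ × ℕ) : ℝ :=
  Real.log T ^ 3 * ps b.1 * f1 ε (Real.log b.1 / Real.log T) (Real.log b.2 / Real.log T) /
    Real.sqrt ((b.1 : ℝ) * b.2)

/-- coefficients of `C2` -/
def c2 (ε T : ℝ) (b : ℕ × ℕ) : ℝ :=
  Real.log T ^ 4 * kp * De b.1 * De b.2 *
    f2 ε (Real.log b.1 / Real.log T) (Real.log b.2 / Real.log T) / Real.sqrt ((b.1 : ℝ) * b.2)

/-- index set of `C1`, `C2` -/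
def SS' (ε T : ℝ) : Finset (ℕ × ℕ) :=
  ((Icc 1 ⌊T ^ (1 / 2 - ε)⌋₊) ×ˢ (Icc 1 ⌊T ^ (1 / 2 - ε)⌋₊)).filter (fun b => Nat.Coprime b.1 b.2)

/-- length of `A` -/
def NN (ε T : ℝ) : ℕ := ⌊T ^ (1 / 2 - ε)⌋₊

/-- the Dirichlet polynomial `A` -/
def Ap (ε T t : ℝ) : ℂ :=
  ∑ n ∈ Icc 1 (NN ε T), ((aa ε T n / Real.sqrt n : ℝ) : ℂ) * ef (-(Real.log n)) t

/-- `Σ c(h,l) (h/l)^{it}` -/
def Cp (S : Finset (ℕ × ℕ)) (c : ℕ × ℕ → ℝ) (t : ℝ) : ℂ :=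
  ∑ b ∈ S, (c b : ℂ) * ef (Real.log ((b.1 : ℝ) / b.2)) t

/-- `conj B = X C1 + X^2 C2` -/
def Bc (ε T t : ℝ) : ℂ :=
  Xf (cl t) * Cp (SS' ε T) (c1 ε T) t + Xf (cl t) ^ 2 * Cp (SS' ε T) (c2 ε T) t

/-- the weighted eighth moment -/
def M8 (k : ℕ) (T : ℝ) : ℝ := ∫ t in Set.Ioi (0 : ℝ), om k (k / T) t * ‖riemannZeta (cl t)‖ ^ 8

/-- continuous integrals -/
def IW1n (ε : ℝ) : ℝ := ∫ u : Fin 2 → ℝ, Gd ![9, 1] u * f1 ε (u 0) (u 1) ^ 2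
def IW1c (ε : ℝ) : ℝ := ∫ u : Fin 4 → ℝ, Gd ![3, 6, 1, 2] u *
  (f1 ε (u 0 + u 1) (u 2) * et ε (u 1 + u 3) * (1 - u 0 - u 2 - u 3))
def IW2n (ε : ℝ) : ℝ := ∫ u : Fin 2 → ℝ, Gd ![4, 4] u * f2 ε (u 0) (u 1) ^ 2
def IW2c (ε : ℝ) : ℝ := ∫ u : Fin 3 → ℝ, Gd ![4, 4, 4] u *
  (f2 ε (u 0) (u 1) * et ε (u 0 + u 2))
def IN (ε : ℝ) : ℝ := ∫ u : Fin 4 → ℝ, Gd ![4, 4, 4, 4] u *
  (et ε (u 0 + u 1) * et ε (u 2 + u 3) * et ε (u 0 + u 2) * et ε (u 1 + u 3))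

end

end Pool.Agent.H223.EM
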