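import Pool.Agent.H223.EM.FinalA
import Pool.Agent.H223.EM.MB3

set_option autoImplicit false

/-!
Eighth moment lower bound: the theorem.
-/

namespace Pool.Agent.H223.EM

open Filter

/-- lower bound for the eighth moment of the zeta function -/
theorem eighth_moment : ∀ᶠ T : ℝ in atTop,
    779 * Pool.Agent.H306R2.aF 4 / (Nat.factorial 16 : ℝ) * T * Real.log T ^ 16 ≤
      ∫ t in (0 : ℝ)..T, ‖riemannZeta (1 / 2 + t * Complex.I)‖ ^ 8 :=
  eighth_moment_of_B (Pool.Agent.H223.EM.MB3.B_norm_of (fun ε h1 h2 => sum_c1_sq ε h1 h2)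
    (fun ε h1 h2 => sum_c2_sq ε h1 h2))

end Pool.Agent.H223.EM
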