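import Pool.Agent.H223.EM.Defs
import Pool.Agent.H223.EM.MDefs
import Pool.Agent.H676R2.EM_MA
import Pool.Agent.H403R2.EM_MB
import Pool.Agent.H207R2.EM_MC
import Pool.Agent.H477R2.EM_MI1
import Pool.Agent.H497R2.EM_MI2
import Pool.Agent.H509R2.EM_MI3
import Pool.Agent.H9R3.EM_MI4
import Pool.Agent.H202R2.EM_MI5
import Pool.Agent.H85R2.EM_MS1
import Pool.Agent.H19R2.EM_MS2
import Pool.Agent.H989R2.EM_MS3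
import Pool.Agent.H697.EM.MS4
import Pool.Agent.H329R2.EM_MS5
import Pool.Agent.H697.EM.MB1
import Pool.Agent.H36R2.EM_MB2
import Pool.Agent.H284R2.EM_MH
import Pool.Agent.H491R2.EM_MN1
import Pool.Agent.H989R2.EM_MN2
import Pool.Agent.H375R3.EM_MN3
import Pool.Agent.H672R2.EM_MF1
import Pool.Agent.H56R2.EM_MF2
import Pool.Agent.H724R2.EM_T1
import Pool.Agent.H51R2.EM_T2
import Pool.Agent.H726R2.EM_T3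
import Pool.Agent.H726R2.EM_T4
import Pool.Agent.H58R2.EM_T5
import Pool.Agent.H204R2.EM_T6
import Pool.Agent.H75R2.EM_T7a
import Pool.Agent.H61R2.EM_T7b
import Pool.Agent.H341R2.EM_T7c
import Pool.Agent.H341R2.EM_T8a
import Pool.Agent.H997R2.EM_T8
import Pool.Agent.H116R2.EM_T9
import Pool.Agent.H303R2.EM_T10
import Pool.Agent.H133R2.EM_T11

set_option autoImplicit false

/-!
Eighth moment lower bound: assembly of all parts except the norm of `B`.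
-/

namespace Pool.Agent.H223.EM

open Finset Filter Topology MeasureTheory Complex
open Pool.Agent.H306R2 Pool.Agent.H306R2.SM

noncomputable section

/-- MC -/
theorem MEP {r : ℕ} (hr : 0 < r) (m : Fin r → ℕ) (lam : ℕ → (Fin r → ℕ) → ℝ) (H : LW r m lam) :
    KH r (mw lam) ∧ ∀ s : Fin r → ℝ, (∀ i, 0 < s i) →
      Tendsto (fun L : ℝ => (∑' b : Fin r → ℕ, mw lam b * ∏ i, (b i : ℝ) ^ (-(s i / L))) /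
          L ^ ((∑ i, m i : ℕ) : ℝ)) atTop
        (𝓝 ((∏' p : Nat.Primes, ((1 - 1 / (p : ℝ)) ^ (∑ i, m i) * ∑' v : Fin r → ℕ, lam p v)) *
          ∏ i, (s i) ^ (-(m i : ℝ)))) :=
  Pool.Agent.H207R2.EM.MEP hr m lam H (Pool.Agent.H676R2.EM.mw_euler hr m lam H)
    (Pool.Agent.H403R2.EMMB.mw_prod_lim hr m lam H)

/-- MI1 -/
theorem w2_lim : KH 2 w2 ∧ ∀ s : Fin 2 → ℝ, (∀ i, 0 < s i) →
    Tendsto (fun L : ℝ => (∑' b : Fin 2 → ℕ, w2 b * ∏ i, (b i : ℝ) ^ (-(s i / L))) / L ^ (10 : ℝ))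
      atTop (𝓝 (aF 4 * ∏ i, (s i) ^ (-((![9, 1] : Fin 2 → ℝ) i)))) :=
  Pool.Agent.H477R2.EM.w2_lim_of (fun {_} hr m lam H => MEP hr m lam H)

/-- MI2 -/
theorem w4_lim : KH 4 w4 ∧ ∀ s : Fin 4 → ℝ, (∀ i, 0 < s i) →
    Tendsto (fun L : ℝ => (∑' b : Fin 4 → ℕ, w4 b * ∏ i, (b i : ℝ) ^ (-(s i / L))) / L ^ (12 : ℝ))
      atTop (𝓝 (aF 4 * ∏ i, (s i) ^ (-((![3, 6, 1, 2] : Fin 4 → ℝ) i)))) :=
  Pool.Agent.H497R2.EM.w4_lim (fun {_} hr m lam H => MEP hr m lam H)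

/-- MI3 -/
theorem v2_lim : 0 < kp ∧ KH 2 v2 ∧ ∀ s : Fin 2 → ℝ, (∀ i, 0 < s i) →
    Tendsto (fun L : ℝ => (∑' b : Fin 2 → ℕ, v2 b * ∏ i, (b i : ℝ) ^ (-(s i / L))) / L ^ (8 : ℝ))
      atTop (𝓝 (aF 4 / kp ^ 2 * ∏ i, (s i) ^ (-((![4, 4] : Fin 2 → ℝ) i)))) :=
  Pool.Agent.H509R2.EMMI3.v2_lim (fun {_} hr m lam H => MEP hr m lam H)

/-- MI4 -/
theorem v3_lim : KH 3 v3 ∧ ∀ s : Fin 3 → ℝ, (∀ i, 0 < s i) →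
    Tendsto (fun L : ℝ => (∑' b : Fin 3 → ℕ, v3 b * ∏ i, (b i : ℝ) ^ (-(s i / L))) / L ^ (12 : ℝ))
      atTop (𝓝 (aF 4 / kp * ∏ i, (s i) ^ (-((![4, 4, 4] : Fin 3 → ℝ) i)))) :=
  Pool.Agent.H9R3.EMMI4.v3_lim (fun {_} hr m lam H => MEP hr m lam H)

/-- MI5 -/
theorem wN_lim : KH 4 wN ∧ ∀ s : Fin 4 → ℝ, (∀ i, 0 < s i) →
    Tendsto (fun L : ℝ => (∑' b : Fin 4 → ℕ, wN b * ∏ i, (b i : ℝ) ^ (-(s i / L))) / L ^ (16 : ℝ))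
      atTop (𝓝 (aF 4 * ∏ i, (s i) ^ (-((![4, 4, 4, 4] : Fin 4 → ℝ) i)))) :=
  Pool.Agent.H202R2.EM5.wN_lim (fun {_} hr m lam H => MEP hr m lam H)

/-- MS1 -/
theorem sum_c1_sq (ε : ℝ) (hε : 0 < ε) (hε1 : ε < 1 / 8) :
    Tendsto (fun T : ℝ => (∑ b ∈ SS' ε T, c1 ε T b ^ 2) / Real.log T ^ 16) atTop
      (𝓝 (aF 4 * IW1n ε)) :=
  Pool.Agent.H85R2.EM.sum_c1_sq_of w2_lim ε hε hε1

/-- MS2 -/
theorem sum_c2_sq (ε : ℝ) (hε : 0 < ε) (hε1 : ε < 1 / 8) :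
    Tendsto (fun T : ℝ => (∑ b ∈ SS' ε T, c2 ε T b ^ 2) / Real.log T ^ 16) atTop
      (𝓝 (aF 4 * IW2n ε)) :=
  Pool.Agent.H85R2.EM.sum_c2_sq_of v2_lim ε hε hε1

/-- MS3 -/
theorem sum_cross1 (ε : ℝ) (hε : 0 < ε) (hε1 : ε < 1 / 8) (c : ℝ) (hc : c < aF 4 * IW1c ε) :
    ∀ᶠ T : ℝ in atTop, ∀ k : ℕ, kr' T k → c * Real.log T ^ 16 ≤
      ∑ b ∈ SS' ε T, c1 ε T b * ∑ n ∈ Icc 1 (NN ε T), aa ε T n / Real.sqrt n *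
        Mt k (Yf k T) b.1 b.2 n :=
  Pool.Agent.H989R2.EM3.sum_cross1 w4_lim ε hε hε1 c hc

/-- MS4 -/
theorem sum_cross2 (ε : ℝ) (hε : 0 < ε) (hε1 : ε < 1 / 8) :
    Tendsto (fun T : ℝ => (∑ b ∈ SS' ε T, c2 ε T b * ∑ n ∈ Icc 1 (NN ε T),
        if b.1 ∣ n then aa ε T n * d2 (b.2 * (n / b.1)) / Real.sqrt ((n : ℝ) * (b.2 * (n / b.1) : ℕ))
          else 0) / Real.log T ^ 16) atTop
      (𝓝 (aF 4 * IW2c ε)) :=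
  Pool.Agent.H697.EM.MS4.sum_cross2_of v2_lim.1 v3_lim ε hε hε1

/-- MS5 -/
theorem A_fourth (ε : ℝ) (hε : 0 < ε) (hε1 : ε < 1 / 8) (c : ℝ) (hc : aF 4 * IN ε < c) :
    ∀ᶠ T : ℝ in atTop, ∀ k : ℕ, kr' T k →
      ∫ t in Set.Ioi (0 : ℝ), om k (k / T) t * ‖Ap ε T t‖ ^ 4 ≤ c * Real.log T ^ 16 :=
  Pool.Agent.H329R2.MS5.A_fourth_of wN_lim ε hε hε1 c hc

/-- MB2 -/
theorem cross2_eval (ε : ℝ) (hε : 0 < ε) (hε1 : ε < 1 / 8) : ∀ᶠ T : ℝ in atTop, ∀ k : ℕ, kr' T k →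
    ‖(∫ t in Set.Ioi (0 : ℝ), (om k (k / T) t : ℂ) * (riemannZeta (cl t) ^ 2 * Xf (cl t) ^ 2) *
        Ap ε T t * Cp (SS' ε T) (c2 ε T) t) -
      ((∑ b ∈ SS' ε T, c2 ε T b * ∑ n ∈ Icc 1 (NN ε T),
        if b.1 ∣ n then aa ε T n * d2 (b.2 * (n / b.1)) / Real.sqrt ((n : ℝ) * (b.2 * (n / b.1) : ℕ))
          else 0 : ℝ) : ℂ)‖ ≤ 1 :=
  Pool.Agent.H36R2.EM_MB2.cross2_eval (fun ε hε hε1 => Pool.Agent.H697.EM.MB1.B2_part ε hε hε1) ε hε hε1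

/-- T6 -/
theorem voronoi2 (k h m : ℕ) (hk : 1 ≤ k) (hh : 1 ≤ h) (hm : 1 ≤ m) (hc : Nat.Coprime h m)
    (Y : ℝ) (hY : 0 < Y) :
    Summable (fun j : ℕ => Dt 0 k h m (-(1 / 4)) Y j) ∧
    Summable (fun j : ℕ => Dt 1 k h m (-(1 / 4)) Y j) ∧
    SS2 k h m Y = (((k.factorial : ℝ) * Y ^ (k + 1) / m * (Real.log (Y / ((m : ℝ) * h)) + bk k) : ℝ) : ℂ) +
      ((Y ^ k * h / (2 * Real.pi ^ 2) : ℝ) : ℂ) *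
        ((∑' j : ℕ, Dt 0 k h m (-(1 / 4)) Y j) + ∑' j : ℕ, Dt 1 k h m (-(1 / 4)) Y j) :=
  Pool.Agent.H204R2.EM.voronoi2_of
    (fun h _ u s hs => Pool.Agent.H51R2.EM.E2_series h u s hs)
    (fun h _ u hu => Pool.Agent.H726R2.EM.E2_entire h u hu)
    (fun h _ u s => Pool.Agent.H726R2.EM.E2_Pz h u s)
    (fun h _ u v huv s hs => Pool.Agent.H726R2.EM.E2_left h u v huv s hs)
    (fun k hk V hV => Pool.Agent.H58R2.EM.zeta2_shift k hk V hV) k h m hk hh hm hc Y hY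

/-- T9 -/
theorem head_ms (ε : ℝ) (hε : 0 < ε) : ∃ C : ℝ, ∃ A : ℕ, 0 < C ∧ ∀ (i : Fin 2) (k : ℕ), 1 ≤ k →
    ∀ Y : ℝ, 1 ≤ Y → ∀ N J H L : ℕ, 1 ≤ N → 1 ≤ J → 1 ≤ H → 1 ≤ L →
    ∀ a : ℕ → ℝ, (∀ n, |a n| ≤ d2 n) →
    ∑ h ∈ Ico H (2 * H), ∑ l ∈ (Ico L (2 * L)).filter (fun l => Nat.Coprime h l),
      ‖Hd i k Y N J a h l‖ ^ 2 ≤
      C * (k : ℝ) ^ A * ((H : ℝ) * L * N * J) ^ ε / Y * (1 + (L : ℝ) / H) * ((H : ℝ) ^ 2 + N * J) :=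
  Pool.Agent.H116R2.EM.head_ms Pool.Agent.H341R2.EM.kap_int
    (fun ε hε => Pool.Agent.H997R2.EM8.BIL ε hε) ε hε

/-- T10 -/
theorem err_ms (ε : ℝ) (hε : 0 < ε) (hε1 : ε < 1 / 4) : ∃ e : ℝ, 0 < e ∧ ∀ᶠ T : ℝ in atTop,
    ∀ k : ℕ, kr' T k → ∀ N : ℕ, (N : ℝ) ≤ T ^ (1 / 2 - ε) →
    ∀ a : ℕ → ℝ, (∀ n, |a n| ≤ d2 n) → ∀ S : Finset (ℕ × ℕ), (∀ b ∈ S, Adm ε T b) →
    ∑ b ∈ S, ‖Err k (Yf k T) N a b.1 b.2‖ ^ 2 ≤ T ^ (-e) :=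
  Pool.Agent.H303R2.EMT10.err_ms_of (fun k h m hk hh hm hc Y hY => voronoi2 k h m hk hh hm hc Y hY)
    (fun i k σ σ' x h1 h2 h3 h4 hx => Pool.Agent.H75R2.EM.Kc_shift i k σ σ' x h1 h2 h3 h4 hx)
    (fun B => Pool.Agent.H61R2.EM.Kc_tail B) (fun ε hε => head_ms ε hε) ε hε hε1

/-- T11 -/
theorem TW (ε : ℝ) (hε : 0 < ε) (hε1 : ε < 1 / 4) : ∃ e : ℝ, 0 < e ∧ ∀ᶠ T : ℝ in atTop,
    ∀ k : ℕ, kr' T k → ∀ N : ℕ, (N : ℝ) ≤ T ^ (1 / 2 - ε) →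
    ∀ a : ℕ → ℝ, (∀ n, |a n| ≤ d2 n) → ∀ S : Finset (ℕ × ℕ), (∀ b ∈ S, Adm ε T b) →
    ∀ c : ℕ × ℕ → ℝ,
    ‖(∫ t in Set.Ioi (0 : ℝ), (om k (k / T) t : ℂ) * (riemannZeta (cl t) ^ 2 * Xf (cl t)) *
        (∑ n ∈ Icc 1 N, ((a n / Real.sqrt n : ℝ) : ℂ) * ef (-(Real.log n)) t) *
        (∑ b ∈ S, (c b : ℂ) * ef (Real.log ((b.1 : ℝ) / b.2)) t)) -
      ((∑ b ∈ S, c b * ∑ n ∈ Icc 1 N, a n / Real.sqrt n * Mt k (Yf k T) b.1 b.2 n : ℝ) : ℂ)‖ ≤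
    T ^ (-e) * (1 + ∫ t in Set.Ioi (0 : ℝ), om k (k / T) t * ‖riemannZeta (cl t)‖ ^ 8) *
      (1 + ∑ b ∈ S, c b ^ 2) :=
  Pool.Agent.H133R2.EM11.TW_of Pool.Agent.H724R2.EM.twist2 (fun ε hε hε1 => err_ms ε hε hε1) ε hε hε1

/-- the theorem, given the bound for the norm of `B` (MB3) -/
theorem eighth_moment_of_B
    (hB3 : ∀ (ε : ℝ), 0 < ε → ε < 1 / 8 → ∀ᶠ T : ℝ in atTop, ∀ k : ℕ, kr' T k →
      ∫ t in Set.Ioi (0 : ℝ), om k (k / T) t * ‖Bc ε T t‖ ^ 2 ≤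
        (∑ b ∈ SS' ε T, c1 ε T b ^ 2) + (∑ b ∈ SS' ε T, c2 ε T b ^ 2) + 1) :
    ∀ᶠ T : ℝ in atTop,
      779 * aF 4 / (Nat.factorial 16 : ℝ) * T * Real.log T ^ 16 ≤
        ∫ t in (0 : ℝ)..T, ‖riemannZeta (1 / 2 + t * Complex.I)‖ ^ 8 :=
  Pool.Agent.H56R2.EM_MF2.eighth_moment_of Pool.Agent.H491R2.EMMN1.IW1_lim
    Pool.Agent.H989R2.EM.IW2_lim Pool.Agent.H375R3.EMMN3.IN_lim
    (Pool.Agent.H672R2.EM_MF1.main_lower_of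
      (fun ε h1 h2 => TW ε h1 h2) (fun ε h1 h2 => sum_c1_sq ε h1 h2)
      (fun ε h1 h2 => sum_c2_sq ε h1 h2) (fun ε h1 h2 c hc => sum_cross1 ε h1 h2 c hc)
      (fun ε h1 h2 => sum_cross2 ε h1 h2) (fun ε h1 h2 c hc => A_fourth ε h1 h2 c hc)
      (fun ε h1 h2 => cross2_eval ε h1 h2) hB3
      (fun ε T hT k hk => Pool.Agent.H284R2.EM.holder8 ε T hT k hk))

end

end Pool.Agent.H223.EM
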